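import Pool.Agent.helper24.BVD.FinMult
import Pool.Agent.helper24.BVD.PD

/-!
# MP_81c801_nt: finitely many integer multipliers for all positive rationals

There is a finite set `D` of positive integers such that for every positive rational `r` some
`d r`, `d ∈ D`, satisfies the whole assertion of Q1.
-/

set_option autoImplicit false

namespace Pool.Agent.Results.MP_81c801_nt.FiniteMultipliers

theorem result :
    ∃ D : Finset ℕ, (∀ d ∈ D, 0 < d) ∧ ∀ r : ℚ, 0 < r → ∃ d ∈ D,
      {x : ℕ × ℕ | x.1.Prime ∧ x.2.Prime ∧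
        ((x.1 : ℚ) + 1) / ((x.2 : ℚ) + 1) = (d : ℚ) * r}.Infinite ∧
      {x : ℕ × ℕ | x.1.Prime ∧ x.2.Prime ∧
        ((x.1 : ℚ) - 1) / ((x.2 : ℚ) - 1) = (d : ℚ) * r}.Infinite :=
  BVD.finMult BVD.pd

end Pool.Agent.Results.MP_81c801_nt.FiniteMultipliers
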